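import Pool.Agent.H5.DPG.Stmts

/-! Row FSB of board dpg: basic facts on masks. -/

set_option autoImplicit false

namespace Pool.DPG

open Pool.PG

namespace FSBH

theorem getD_msk (n : ℕ) (f : ℕ → Bool) (v : ℕ) (hv : v < n) : (msk n f).getD v false = f v := by
  unfold msk
  rw [List.getD_eq_getElem?_getD, List.getElem?_map, List.getElem?_range hv]
  rfl

theorem mem_fs (g : Game) (X : List Bool) (v : ℕ) :
    v ∈ fs g X ↔ v < g.length ∧ X.getD v false = true := by
  unfold fs
  rw [Finset.mem_filter, Finset.mem_range]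

theorem fs_msk (g : Game) (f : ℕ → Bool) :
    fs g (msk g.length f) = (Finset.range g.length).filter fun v => f v = true := by
  ext v
  rw [mem_fs, Finset.mem_filter, Finset.mem_range]
  constructor
  · rintro ⟨h1, h2⟩
    rw [getD_msk _ _ _ h1] at h2
    exact ⟨h1, h2⟩
  · rintro ⟨h1, h2⟩
    refine ⟨h1, ?_⟩
    rw [getD_msk _ _ _ h1]
    exact h2

theorem card_filter_getD (X : List Bool) :
    ((Finset.range X.length).filter fun v => X.getD v false = true).card = cnt X := by
  unfold cnt
  rw [Finset.card_filter]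
  induction X with
  | nil => simp
  | cons b X ih =>
    rw [List.length_cons, Finset.sum_range_succ']
    simp only [List.getD_cons_succ, List.getD_cons_zero]
    rw [ih]
    cases b
    · simp
    · simp

end FSBH

open FSBH in
theorem fsb_thm : FSBStmt := by
  refine ⟨?_, ?_, ?_, ?_⟩
  · intro g f
    exact ⟨by simp [msk], fs_msk g f⟩
  · intro g X Y
    unfold dif
    rw [fs_msk]
    ext v
    rw [Finset.mem_filter, Finset.mem_sdiff, mem_fs, mem_fs, Finset.mem_range]
    cases h1 : X.getD v false <;> cases h2 : Y.getD v false <;> simp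
  · intro g X hX
    constructor
    · unfold fs
      rw [← hX, card_filter_getD]
    · rw [List.any_eq_true]
      constructor
      · rintro ⟨b, hb, hbt⟩
        obtain ⟨v, hv, rfl⟩ := List.mem_iff_getElem.1 hb
        refine ⟨v, (mem_fs g X v).2 ⟨hX ▸ hv, ?_⟩⟩
        rw [List.getD_eq_getElem _ _ hv]
        exact hbt
      · rintro ⟨v, hv⟩
        rw [mem_fs] at hv
        have hv' : v < X.length := hX ▸ hv.1
        refine ⟨X[v], List.getElem_mem hv', ?_⟩
        have := hv.2
        rw [List.getD_eq_getElem _ _ hv'] at this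
        exact this
  · intro g X Y hX hY h
    refine List.ext_getElem (hX.trans hY.symm) fun v h1 h2 => ?_
    have h3 : v ∈ fs g X ↔ v ∈ fs g Y := by rw [h]
    rw [mem_fs, mem_fs, List.getD_eq_getElem _ _ h1, List.getD_eq_getElem _ _ h2] at h3
    have h4 : v < g.length := hX ▸ h1
    rw [Bool.eq_iff_iff]
    exact ⟨fun h5 => (h3.1 ⟨h4, h5⟩).2, fun h5 => (h3.2 ⟨h4, h5⟩).2⟩

end Pool.DPG
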